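import Pool.Agent.W295.NL.Stm

set_option autoImplicit false

open Pool.Agent.W295.NL

namespace Pool.Agent.W924.NL.TB

theorem main : S_TB := by
  intro Q L n hn hB
  obtain ⟨X, κ, hC, hX⟩ := hB
  have key : ∀ (a : Fin 3) (i j : Fin n), X a (2 * i) = X a (2 * j) → i = j := by
    intro a i j h
    have h2 : (2 * (i : ℕ)) ≡ 2 * j [MOD 2] :=
      ((Nat.modEq_zero_iff_dvd.2 (dvd_mul_right 2 _)).trans
        (Nat.modEq_zero_iff_dvd.2 (dvd_mul_right 2 _)).symm)
    have h1 := hX a _ _ h h2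
    have hi := i.2
    have hj := j.2
    have h3 := Nat.ModEq.eq_of_lt_of_lt h1 (by omega) (by omega)
    exact Fin.ext (by omega)
  refine ⟨fun i => X 0 (2 * i), fun i => X 1 (2 * i), fun i j h => key 0 i j h,
    fun i j h => key 1 i j h, fun i j h => key 2 i j ?_⟩
  rw [hC.sym, hC.sym]
  exact h

end Pool.Agent.W924.NL.TB
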